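import Pool.Agent.Helper14.TL7.StD

/-!
# Project TL (levels `4·7^n`), module Ld: leading forms of `U`, `V` and the values at the origin

Modulo the relations the rows of the operators are the lists `BUE`, `BVE`, `BOE`; their leading forms are read off from the
certificates by LDG (and OMG for the values at the origin).
Models: `Pool/Agent/Helper86/S7/M_Ld.lean` and `Pool/Agent/Helper43/S7/M_Om.lean`.
-/

set_option autoImplicit false

namespace Pool.Agent.Helper42.TL7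

open Pool.Agent.Helper14.TL7
open Pool.Agent.Helper4.S7 (Tm mulL sclL Gd mmL idL)
open Pool.Agent.Helper84.S7

/-! ### Good lists -/

private theorem gd_app {L L' : List Tm} (h : ∀ t ∈ L, Gd t) (h' : ∀ t ∈ L', Gd t) :
    ∀ t ∈ L ++ L', Gd t := by
  intro t ht
  rcases List.mem_append.1 ht with h1 | h1
  · exact h t h1
  · exact h' t h1

private theorem gd_scl {L : List Tm} (n : ℤ) (h : ∀ t ∈ L, Gd t) : ∀ t ∈ sclL n L, Gd t := by
  intro t ht
  unfold sclL at ht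
  rw [List.mem_map] at ht
  obtain ⟨a, ha, rfl⟩ := ht
  exact h a ha

private theorem gd_id (c : ℤ) (i f : Fin 2) : ∀ t ∈ idL c i f, Gd t := by
  intro t ht
  unfold idL at ht
  split_ifs at ht
  · rw [List.mem_singleton] at ht
    subst ht
    unfold Gd
    simp
  · simp at ht

private theorem gd_mul (hp : S7Opm) {L L' : List Tm} (h : ∀ t ∈ L, Gd t) (h' : ∀ t ∈ L', Gd t) :
    ∀ t ∈ mulL L L', Gd t := ((hp 0 0).1 L L' h h').1

private theorem gd_mm (hp : S7Opm) {A B : Fin 2 → Fin 2 → List Tm} (hA : ∀ i f, ∀ t ∈ A i f, Gd t)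
    (hB : ∀ i f, ∀ t ∈ B i f, Gd t) (i f : Fin 2) : ∀ t ∈ mmL A B i f, Gd t :=
  gd_app (gd_mul hp (hA i 0) (hB 0 f)) (gd_mul hp (hA i 1) (hB 1 f))

private theorem gd_sb (hp : S7Opm) {L M : Fin 2 → List Tm}
    (hL : ∀ f, ∀ t ∈ L f, Gd t) (hM : ∀ f, ∀ t ∈ M f, Gd t)
    (hR : ∀ i f, ∀ t ∈ relE i f, Gd t) (f : Fin 2) : ∀ t ∈ sbE L M f, Gd t :=
  gd_app (gd_app (hL f) (gd_scl _ (gd_mul hp (hM 0) (hR 0 f)))) (gd_scl _ (gd_mul hp (hM 1) (hR 1 f)))

private theorem gd_rel (hc : TCeG) : ∀ i f, ∀ t ∈ relE i f, Gd t :=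
  fun i f => (hc.1 i f).2.2.2.2.2.2.2.2.2.1

private theorem gd_BU (ho : S7Opm) (hc : TCeG) (i f : Fin 2) : ∀ t ∈ BUE i f, Gd t := by
  have a3 : ∀ i f, ∀ t ∈ T3L i f, Gd t := fun i f => (hc.1 i f).1
  have a11 : ∀ i f, ∀ t ∈ T11L i f, Gd t := fun i f => (hc.1 i f).2.2.1
  have au : ∀ i f, ∀ t ∈ MUE i f, Gd t := fun i f => (hc.1 i f).2.2.2.2.2.2.2.2.2.2.1
  exact gd_sb ho (fun f => gd_app (gd_app (a11 i f) (gd_scl _ (gd_mm ho a3 a3 i f))) (gd_id _ i f))
    (au i) (gd_rel hc) f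

private theorem gd_BV (ho : S7Opm) (hc : TCeG) (i f : Fin 2) : ∀ t ∈ BVE i f, Gd t := by
  have a3 : ∀ i f, ∀ t ∈ T3L i f, Gd t := fun i f => (hc.1 i f).1
  have a5 : ∀ i f, ∀ t ∈ T5L i f, Gd t := fun i f => (hc.1 i f).2.1
  have a11 : ∀ i f, ∀ t ∈ T11L i f, Gd t := fun i f => (hc.1 i f).2.2.1
  have a13 : ∀ i f, ∀ t ∈ T13L i f, Gd t := fun i f => (hc.1 i f).2.2.2.1
  have a29 : ∀ i f, ∀ t ∈ T29L i f, Gd t := fun i f => (hc.1 i f).2.2.2.2.2.2.1
  have a37 : ∀ i f, ∀ t ∈ T37L i f, Gd t := fun i f => (hc.1 i f).2.2.2.2.2.2.2.1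
  have a43 : ∀ i f, ∀ t ∈ T43L i f, Gd t := fun i f => (hc.1 i f).2.2.2.2.2.2.2.2.1
  have av : ∀ i f, ∀ t ∈ MVE i f, Gd t := fun i f => (hc.1 i f).2.2.2.2.2.2.2.2.2.2.2
  have ac : ∀ i f, ∀ t ∈ TcL i f, Gd t := fun i f => gd_app (a13 i f) (gd_scl _ (a5 i f))
  exact gd_sb ho (fun f => gd_app (gd_app (gd_app (gd_app (gd_app (gd_id _ i f) (a11 i f))
    (gd_scl _ (a29 i f))) (gd_scl _ (a37 i f))) (gd_scl _ (a43 i f))) (gd_mm ho a3 ac i f))
    (av i) (gd_rel hc) f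

private theorem gd_BO (ho : S7Opm) (hc : TCeG) (c : Fin 4) (f : Fin 2) : ∀ t ∈ BOE c f, Gd t := by
  have a3 : ∀ i f, ∀ t ∈ T3L i f, Gd t := fun i f => (hc.1 i f).1
  have a5 : ∀ i f, ∀ t ∈ T5L i f, Gd t := fun i f => (hc.1 i f).2.1
  have a11 : ∀ i f, ∀ t ∈ T11L i f, Gd t := fun i f => (hc.1 i f).2.2.1
  have a13 : ∀ i f, ∀ t ∈ T13L i f, Gd t := fun i f => (hc.1 i f).2.2.2.1
  have a17 : ∀ i f, ∀ t ∈ T17L i f, Gd t := fun i f => (hc.1 i f).2.2.2.2.1
  have a19 : ∀ i f, ∀ t ∈ T19L i f, Gd t := fun i f => (hc.1 i f).2.2.2.2.2.1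
  refine gd_sb ho (fun f => ?_) (hc.2 c) (gd_rel hc) f
  unfold OLE
  split_ifs
  · exact gd_id _ 0 f
  · exact gd_app (a3 0 f) (gd_id _ 0 f)
  · exact gd_app (a5 0 f) (gd_scl _ (a3 0 f))
  · exact gd_app (gd_app (gd_app (gd_app (gd_app (gd_id _ 0 f) (gd_scl _ (a11 0 f))) (a13 0 f))
      (a17 0 f)) (gd_scl _ (a19 0 f))) (gd_mm ho a3 a5 0 f)

/-! ### Rows modulo the relations -/

section

variable {r s : ℕ}

private theorem row (ho : S7Opm) (hr : TOpm) (L M : Fin 2 → List Tm)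
    (hM : ∀ f, ∀ t ∈ M f, Gd t) (hR : ∀ i f, ∀ t ∈ relE i f, Gd t)
    (F : Fin 2 → Fn7 (7 ^ r) (7 ^ s)) (hF : RelE F) :
    ∑ f : Fin 2, opL (L f) (F f) = opL (sbE L M 0) (F 0) + opL (sbE L M 1) (F 1) := by
  obtain ⟨p1, p2, p3, -⟩ := ho r s
  have h := (hr r s F).1 hF
  have hz : ∀ ρ : Fin 2, opL (M ρ) (opL (relE ρ 0) (F 0)) + opL (M ρ) (opL (relE ρ 1) (F 1)) = 0 := by
    intro ρ
    have h1 := h ρ
    rw [Fin.sum_univ_two] at h1
    rw [← map_add, h1, map_zero]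
  have e : ∀ f : Fin 2, opL (sbE L M f) (F f) = opL (L f) (F f) +
      (((-1 : ℤ)) : ZMod 7) • opL (M 0) (opL (relE 0 f) (F f)) +
      (((-1 : ℤ)) : ZMod 7) • opL (M 1) (opL (relE 1 f) (F f)) := by
    intro f
    unfold sbE
    rw [p3, p3, p2, p2, (p1 _ _ (hM 0) (hR 0 f)).2, (p1 _ _ (hM 1) (hR 1 f)).2]
    rfl
  rw [Fin.sum_univ_two, e 0, e 1]
  have h0 := hz 0
  have h1 := hz 1
  have e2 : opL (L 0) (F 0) + (((-1 : ℤ)) : ZMod 7) • opL (M 0) (opL (relE 0 0) (F 0)) +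
      (((-1 : ℤ)) : ZMod 7) • opL (M 1) (opL (relE 1 0) (F 0)) + (opL (L 1) (F 1) +
      (((-1 : ℤ)) : ZMod 7) • opL (M 0) (opL (relE 0 1) (F 1)) +
      (((-1 : ℤ)) : ZMod 7) • opL (M 1) (opL (relE 1 1) (F 1))) =
      opL (L 0) (F 0) + opL (L 1) (F 1) +
      (((-1 : ℤ)) : ZMod 7) • (opL (M 0) (opL (relE 0 0) (F 0)) + opL (M 0) (opL (relE 0 1) (F 1))) +
      (((-1 : ℤ)) : ZMod 7) • (opL (M 1) (opL (relE 1 0) (F 0)) + opL (M 1) (opL (relE 1 1) (F 1))) := by
    rw [smul_add, smul_add]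
    abel
  rw [e2, h0, h1, smul_zero, add_zero, add_zero]

/-! ### Leading forms -/

private theorem leadU (hg : TLdg) (hu : TCeU) (i f : Fin 2) (hG : ∀ t ∈ BUE i f, Gd t) :
    Lw ((opL (BUE i f) : Module.End (ZMod 7) (Fn7 (7 ^ r) (7 ^ s))) - if i = f then QoE else 0) 3 := by
  have h := hg r s (BUE i f) 2 (fun k => if i = f ∧ k = 1 then 3 else 0) (by norm_num) hG
    (fun w t ht hw => by
      have h1 := hu i f w t ht (by omega)
      rwa [if_neg, sub_zero] at h1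
      rintro ⟨-, -, h2⟩
      rw [h2] at hw
      simp at hw)
    (fun w t ht hw => by
      have h1 := hu i f w t ht (by omega)
      have e : (if w = 0 ∧ t.2.1 = 0 then (if i = f ∧ t.1 = 1 then 3 else 0) else 0 : ℤ) =
          if i = f ∧ w = 0 ∧ t = (1, 0, 1) then 3 else 0 := by
        obtain ⟨a, k, b⟩ := t
        simp only at hw ⊢
        have hk : k = 0 := by omega
        subst hk
        by_cases hi : i = f
        · by_cases hw0 : w = 0
          · by_cases ha : a = 1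
            · have hb : b = 1 := by omega
              subst ha hb
              simp [hi, hw0]
            · rw [if_pos ⟨hw0, rfl⟩, if_neg (fun h => ha h.2), if_neg]
              rintro ⟨-, -, h2⟩
              exact ha (Prod.ext_iff.1 h2).1
          · rw [if_neg (fun h => hw0 h.1), if_neg (fun h => hw0 h.2.1)]
        · rw [if_neg (fun h : i = f ∧ a = 1 => hi h.1), if_neg (fun h : i = f ∧ _ => hi h.1)]
          exact ite_self _
      rw [← e] at h1
      exact h1)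
  have e3 : ((2 : ℕ) : ℤ) + 1 = 3 := by norm_num
  rw [e3] at h
  have e4 : (∑ k ∈ Finset.range (2 + 1), (((fun k : ℕ => if i = f ∧ k = 1 then (3 : ℤ) else 0) k : ℤ) : ZMod 7) •
      (dX ^ (2 - k) * dY ^ k : Module.End (ZMod 7) (Fn7 (7 ^ r) (7 ^ s)))) = if i = f then QoE else 0 := by
    rw [Finset.sum_range_succ, Finset.sum_range_succ, Finset.sum_range_succ, Finset.sum_range_zero]
    by_cases hi : i = f
    · unfold QoE
      simp [hi]
    · simp [hi]
  rw [e4] at h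
  exact h

private theorem leadV (hg : TLdg) (hv : ∀ i f, TCeV i f) (i f : Fin 2) (hG : ∀ t ∈ BVE i f, Gd t) :
    Lw ((opL (BVE i f) : Module.End (ZMod 7) (Fn7 (7 ^ r) (7 ^ s))) - if i = f then LoE else 0) 9 := by
  have h := hg r s (BVE i f) 8 (fun k => if i = f ∧ (k = 1 ∨ k = 7) then 1 else 0) (by norm_num) hG
    (fun w t ht hw => by
      have h1 := hv i f w t ht
      rwa [if_neg, sub_zero] at h1
      rintro ⟨-, -, h2 | h2⟩
      · rw [h2] at hw
        simp at hw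
      · rw [h2] at hw
        simp at hw)
    (fun w t ht hw => by
      have h1 := hv i f w t ht
      have e : (if w = 0 ∧ t.2.1 = 0 then (if i = f ∧ (t.1 = 1 ∨ t.1 = 7) then 1 else 0) else 0 : ℤ) =
          if i = f ∧ w = 0 ∧ (t = (1, 0, 7) ∨ t = (7, 0, 1)) then 1 else 0 := by
        obtain ⟨a, k, b⟩ := t
        simp only at hw ⊢
        by_cases hi : i = f
        · by_cases hw0 : w = 0
          · by_cases hk : k = 0
            · subst hk
              by_cases ha : a = 1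
              · have hb : b = 7 := by omega
                subst ha hb
                simp [hi, hw0]
              · by_cases ha7 : a = 7
                · have hb : b = 1 := by omega
                  subst ha7 hb
                  simp [hi, hw0]
                · rw [if_pos ⟨hw0, rfl⟩, if_neg, if_neg]
                  · rintro ⟨-, -, h2 | h2⟩
                    · exact ha (Prod.ext_iff.1 h2).1
                    · exact ha7 (Prod.ext_iff.1 h2).1
                  · rintro ⟨-, h2 | h2⟩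
                    · exact ha h2
                    · exact ha7 h2
            · rw [if_neg (fun h => hk h.2), if_neg]
              rintro ⟨-, -, h2 | h2⟩
              · exact hk (Prod.ext_iff.1 (Prod.ext_iff.1 h2).2).1
              · exact hk (Prod.ext_iff.1 (Prod.ext_iff.1 h2).2).1
          · rw [if_neg (fun h => hw0 h.1), if_neg (fun h => hw0 h.2.1)]
        · rw [if_neg (fun h : i = f ∧ (a = 1 ∨ a = 7) => hi h.1), if_neg (fun h : i = f ∧ _ => hi h.1)]
          exact ite_self _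
      rw [← e] at h1
      exact h1)
  have e3 : ((8 : ℕ) : ℤ) + 1 = 9 := by norm_num
  rw [e3] at h
  have e4 : (∑ k ∈ Finset.range (8 + 1), (((fun k : ℕ => if i = f ∧ (k = 1 ∨ k = 7) then (1 : ℤ) else 0) k : ℤ) : ZMod 7) •
      (dX ^ (8 - k) * dY ^ k : Module.End (ZMod 7) (Fn7 (7 ^ r) (7 ^ s)))) = if i = f then LoE else 0 := by
    by_cases hi : i = f
    · unfold LoE
      simp [hi, Finset.sum_range_succ]
    · simp [hi]
  rw [e4] at h
  exact h

private theorem two (i : Fin 2) : i = 0 ∨ i = 1 := by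
  revert i
  decide

private theorem fin_sum (A : Fin 2 → Fn7 (7 ^ r) (7 ^ s)) (Q : Module.End (ZMod 7) (Fn7 (7 ^ r) (7 ^ s)))
    (F : Fin 2 → Fn7 (7 ^ r) (7 ^ s)) (d : ℤ) (i : Fin 2)
    (h : ∀ f, A f - (if i = f then Q else 0 : Module.End (ZMod 7) (Fn7 (7 ^ r) (7 ^ s))) (F f) ∈
      (Wd7 d : Submodule (ZMod 7) (Fn7 (7 ^ r) (7 ^ s)))) :
    A 0 + A 1 - Q (F i) ∈ (Wd7 d : Submodule (ZMod 7) (Fn7 (7 ^ r) (7 ^ s))) := by
  have h3 := Submodule.add_mem _ (h 0) (h 1)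
  rcases two i with rfl | rfl
  · rw [if_pos rfl, if_neg (by decide), LinearMap.zero_apply, sub_zero] at h3
    have e : A 0 + A 1 - Q (F 0) = A 0 - Q (F 0) + A 1 := by abel
    rw [e]
    exact h3
  · rw [if_neg (by decide), if_pos rfl, LinearMap.zero_apply, sub_zero] at h3
    have e : A 0 + A 1 - Q (F 1) = A 0 + (A 1 - Q (F 1)) := by abel
    rw [e]
    exact h3

end

set_option linter.unusedVariables false in
/-- LDU. -/
theorem hLdU (hl : S7Low0) (ho : S7Opm) (hr : TOpm) (hg : TLdg) (hc : TCeG) (hu : TCeU) : TLdU := by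
  intro r s d F hR hF0 hF1 i
  have hF : ∀ f : Fin 2, F f ∈ (Wd7 d : Submodule (ZMod 7) (Fn7 (7 ^ r) (7 ^ s))) := by
    intro f
    rcases two f with rfl | rfl
    · exact hF0
    · exact hF1
  have e := row ho hr (ULE i) (MUE i) (fun f => (hc.1 i f).2.2.2.2.2.2.2.2.2.2.1) (gd_rel hc) F hR
  rw [e]
  exact fin_sum (fun f => opL (BUE i f) (F f)) QoE F (d - 3) i
    (fun f => leadU hg hu i f (gd_BU ho hc i f) d (F f) (hF f))

set_option linter.unusedVariables false in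
/-- LDV. -/
theorem hLdV (hl : S7Low0) (ho : S7Opm) (hr : TOpm) (hg : TLdg) (hc : TCeG) (hv : ∀ i f, TCeV i f) :
    TLdV := by
  intro r s d F hR hF0 hF1 i
  have hF : ∀ f : Fin 2, F f ∈ (Wd7 d : Submodule (ZMod 7) (Fn7 (7 ^ r) (7 ^ s))) := by
    intro f
    rcases two f with rfl | rfl
    · exact hF0
    · exact hF1
  have e := row ho hr (VLE i) (MVE i) (fun f => (hc.1 i f).2.2.2.2.2.2.2.2.2.2.2) (gd_rel hc) F hR
  rw [e]
  exact fin_sum (fun f => opL (BVE i f) (F f)) LoE F (d - 9) i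
    (fun f => leadV hg hv i f (gd_BV ho hc i f) d (F f) (hF f))

set_option linter.unusedVariables false in
/-- OM. -/
theorem hOm (hl : S7Low0) (ho : S7Opm) (hr : TOpm) (hg : TOmg) (hc : TCeG) (hu : TCeO) : TOm := by
  intro r s c F hR hF0 hF1
  have e := row ho hr (OLE c) (MOE c) (hc.2 c) (gd_rel hc) F hR
  rw [e]
  have hn : nOE c.val ≤ 8 := by
    unfold nOE
    split_ifs <;> norm_num
  have hn1 : 1 ≤ nOE c.val := by
    unfold nOE
    split_ifs <;> norm_num
  have h0 := hg r s (BOE c 0) (nOE c.val) (qOE c.val) hn (gd_BO ho hc c 0)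
    (fun t ht hk hw => (hu c t ht hk).1 hw) (F 0) hF0
  have e1 : ((nOE c.val : ℤ) - 1) = ((nOE c.val - 1 : ℕ) : ℤ) := by
    rw [Nat.cast_sub hn1]
    rfl
  rw [e1] at hF1
  have h1 := hg r s (BOE c 1) (nOE c.val - 1) (fun _ => 0) (by omega) (gd_BO ho hc c 1)
    (fun t ht hk hw => by
      simp only [ite_self, sub_zero]
      exact (hu c t ht hk).2 (by omega)) (F 1) hF1
  simp only [Int.cast_zero, zero_mul, Finset.sum_const_zero] at h1
  change (opL (BOE c 0) (F 0) + opL (BOE c 1) (F 1)) 0 0 = _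
  rw [Pi.add_apply, Pi.add_apply, h0, h1, add_zero]
  unfold MoE
  rw [LinearMap.sum_apply, Finset.sum_apply, Finset.sum_apply]
  rfl

end Pool.Agent.Helper42.TL7
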